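import Pool.Agent.TH892.CF4

/-!
Hardy and Littlewood's Conjecture F, with its true constant `C(a, b, c)`, for 100 percent of all
admissible quadratic polynomials of height at most `H`, simultaneously for all lengths
`H^ε ≤ x ≤ H / (log H)^B`.

Method: the asymptotic formula with the Euler product cut at a power of `log H` comes from the
circle method (major arcs from Siegel and Walfisz, a large sieve inequality for the average over
the coefficients). The cut product is compared with the conditionally convergent constant in three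
ranges: a second moment over `c` for primes up to `H^(1/3)`, a large sieve for the quadratic
characters with the odd squarefree kernels of the discriminants `b^2 - 4 a c` and the divisor bound
for primes up to `exp(H^δ)`, and the theorem of Siegel and Walfisz beyond.
-/

set_option autoImplicit false

namespace Pool.Agent.Results.MP_a17b09_nt.ConjectureFAlmostAll

open Finset Filter Topology

/-- the triple `(a, b, c)` is admissible -/
def Admissible (a b c : ℤ) : Prop :=
  0 < a ∧ (∀ d : ℤ, d ∣ a → d ∣ b → d ∣ c → IsUnit d) ∧ ¬ ((2 : ℤ) ∣ a + b ∧ (2 : ℤ) ∣ c) ∧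
    ¬ IsSquare (b ^ 2 - 4 * a * c)

/-- all triples `(a, b, c)` of integers with `1 ≤ a ≤ H` and `|b|, |c| ≤ H` -/
noncomputable def triples (H : ℕ) : Finset (ℤ × ℤ × ℤ) :=
  Icc (1 : ℤ) H ×ˢ Icc (-(H : ℤ)) H ×ˢ Icc (-(H : ℤ)) H

/-- `π_f(x)`: the number of `1 ≤ t ≤ x` for which `f(t) = a t^2 + b t + c` is a (positive) prime -/
def primeCount (a b c : ℤ) (x : ℕ) : ℕ :=
  #((Icc 1 x).filter (fun t : ℕ => (a * (t : ℤ) ^ 2 + b * t + c).toNat.Prime))

/-- the constant `C(a, b, c)` of Conjecture F with its products taken over the primes `p ≤ z` only -/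
noncomputable def partialC (a b c : ℤ) (z : ℕ) : ℝ :=
  (if (2 : ℤ) ∣ a + b then 1 else 1 / 2) *
  (∏ p ∈ (range (z + 1)).filter (fun p : ℕ => p.Prime ∧ 3 ≤ p ∧ (p : ℤ) ∣ a ∧ (p : ℤ) ∣ b),
    (p : ℝ) / (p - 1)) *
  ∏ p ∈ (range (z + 1)).filter (fun p : ℕ => p.Prime ∧ 3 ≤ p ∧ ¬ (p : ℤ) ∣ a),
    (1 - (jacobiSym (b ^ 2 - 4 * a * c) p : ℝ) / (p - 1))

/-- `∑ 2 / log f(t)` over all `1 ≤ t ≤ x` with `f(t) = a t^2 + b t + c ≥ 2`, the form of `Li(x)`
which is correct uniformly in the coefficients -/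
noncomputable def logSum (a b c : ℤ) (x : ℕ) : ℝ :=
  ∑ t ∈ (Icc 1 x).filter (fun t : ℕ => 2 ≤ a * (t : ℤ) ^ 2 + b * t + c),
    2 / Real.log ((a * (t : ℤ) ^ 2 + b * t + c : ℤ) : ℝ)

/-- **Conjecture F holds for 100 percent of the quadratic polynomials of height `H`, for arguments
nearly up to the height.** Let `ε > 0` and `U` be given and let `B` and `H` be large. Then all
triples `(a, b, c)` with `1 ≤ a ≤ H`, `|b|, |c| ≤ H`, with at most
`(number of these triples) / (log H)^U` exceptions, have the following property: if `(a, b, c)` is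
admissible, then the product `C(a, b, c)` converges to a number `C > 0` and for ALL `x` with
`H^ε ≤ x ≤ H / (log H)^B`
`#{1 ≤ t ≤ x : f(t) prime} = (1 + θ (log H)^(-U)) C ∑_{t ≤ x} 2 / log f(t)` with `|θ| ≤ 1`. -/
theorem result (ε : ℝ) (hε : 0 < ε) (U : ℕ) : ∃ B H0 : ℕ, ∀ H : ℕ, H0 ≤ H →
    ∃ X : Finset (ℤ × ℤ × ℤ), X ⊆ triples H ∧ (#X : ℝ) ≤ (#(triples H) : ℝ) / Real.log H ^ U ∧
    ∀ a b c : ℤ, (a, b, c) ∈ triples H → (a, b, c) ∉ X → Admissible a b c →
      ∃ C : ℝ, 0 < C ∧ Tendsto (fun z => partialC a b c z) atTop (𝓝 C) ∧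
      ∀ x : ℕ, (H : ℝ) ^ ε ≤ x → (x : ℝ) * Real.log H ^ B ≤ H →
        |(primeCount a b c x : ℝ) - C * logSum a b c x| ≤ C * logSum a b c x / Real.log H ^ U := by
  obtain ⟨B, H0, h⟩ := Pool.Agent.TH892.quad_most ε hε U
  refine ⟨B, H0, fun H hH => ?_⟩
  obtain ⟨X, h1, h2, h3⟩ := h H hH
  refine ⟨X, h1, h2, fun a b c ht hX hadm => ?_⟩
  obtain ⟨C, hC0, hC, hx⟩ := h3 (a, b, c) ht hX hadm
  refine ⟨C, hC0, hC, fun x h4 h5 => ?_⟩
  have h6 := hx x h4 h5
  have h7 : 2 * C * Pool.Agent.H300R2.BH.lF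
      (Pool.Agent.TH892.pol (Pool.Agent.TH892.vec (a, b, c))) x = C * logSum a b c x := by
    unfold Pool.Agent.H300R2.BH.lF logSum
    simp only [Pool.Agent.TH892.vec_eval]
    rw [mul_sum, mul_sum]
    refine sum_congr rfl fun k _ => ?_
    ring
  rw [h7] at h6
  exact h6

end Pool.Agent.Results.MP_a17b09_nt.ConjectureFAlmostAll
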