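import Mathlib
import Pool.Agent.TH890.DV.B2

/-!
All four sign patterns of the Liouville function at the two factors of `a n^2 + b n + c = d d'`, for
every integer quadratic polynomial with `a > 0` whose discriminant is not a perfect square, definite
or indefinite, with `n` in any given residue class, for at least `N / (log N)^(log 2 + ε)` of the
integers `n ≤ N`.

The starting file `FourSignPatterns` of this problem has negative discriminant and the bound
`N / (log N)^(2 log 2 + ε)`. That a positive proportion of the pairs `(d, d')` has given signs is a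
theorem of the starting library (`Pool.Agent.W84.G`). The new part is the passage from the pairs to the
integers `n` (`Pool/Agent/TH890/DV`): a balanced factorisation of `d d'` is a product of a divisor `a`
of `d` and a divisor `b` of `d'` with given `a b` up to a constant, hence their number is at most a
constant times `Q(d) + Q(d')`, where `Q(d)` is the number of the pairs of divisors of `d` in the same
interval `[2^j, 2^(j+1))`; and `Q(d) ≤ (log X)^(log 2 + ε)` for almost all roots `(d, n mod d)`,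
`d ≤ X`, because the sum of `Q(d)` over the `d ≤ X` composed of primes with a root of the polynomial (a
set of density one half) is `O(X log log X)`, and almost all roots have a modulus `d` with at most
`(log X)^(log 2 + ε)` roots.
-/

set_option autoImplicit false

/-- For all integers `a > 0`, `b`, `c` such that `b^2 - 4 a c` is not a perfect square and every
residue class `r mod q` there is `S` such that for all signs `e₁`, `e₂`: for every `ε > 0` and all
large `N` at least `N / (log N)^(log 2 + ε)` integers `1 ≤ n ≤ N`, `n ≡ r mod q`, have a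
factorisation `a n ^ 2 + b n + c = d d'` with `d, d' ≤ S n`, `λ(d) = e₁`, `λ(d') = e₂`, and no square
divisor larger than `S^2`. Moreover there is `κ > 0` such that for all large `N` at least `κ N` pairs
`(d, d')` of positive integers `≤ N` have these signs and a product `a n ^ 2 + b n + c` with `n ≥ 1`,
`n ≡ r mod q`, without square divisors larger than `S^2`. -/
theorem Pool.Agent.Results.MP_a17b09_nt.QuadraticPatternsLogTwo.result (a b c : ℤ) (ha : 0 < a)
    (hD : ¬ IsSquare (b ^ 2 - 4 * a * c)) (q r : ℕ) (hq : 1 ≤ q) :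
    ∃ S : ℕ, ∀ e₁ e₂ : ℤ, (e₁ = 1 ∨ e₁ = -1) → (e₂ = 1 ∨ e₂ = -1) →
    (∀ ε : ℝ, 0 < ε → ∃ N₀ : ℕ, ∀ N : ℕ, N₀ ≤ N → (N : ℝ) / Real.log N ^ (Real.log 2 + ε) ≤
      (Set.ncard {n : ℕ | 1 ≤ n ∧ n ≤ N ∧ n ≡ r [MOD q] ∧
        ∃ d d' : ℕ, (d : ℤ) * d' = a * (n : ℤ) ^ 2 + b * n + c ∧
        d ≤ S * n ∧ d' ≤ S * n ∧ (∀ k : ℕ, k ^ 2 ∣ d * d' → k ≤ S) ∧
        (-1 : ℤ) ^ ArithmeticFunction.cardFactors d = e₁ ∧
        (-1 : ℤ) ^ ArithmeticFunction.cardFactors d' = e₂} : ℝ)) ∧
    ∃ κ : ℝ, 0 < κ ∧ ∃ N₀ : ℕ, ∀ N : ℕ, N₀ ≤ N → κ * N ≤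
      (Set.ncard {p : ℕ × ℕ | 1 ≤ p.1 ∧ p.1 ≤ N ∧ 1 ≤ p.2 ∧ p.2 ≤ N ∧
        (∃ n : ℕ, 1 ≤ n ∧ n ≡ r [MOD q] ∧ (p.1 : ℤ) * p.2 = a * (n : ℤ) ^ 2 + b * n + c) ∧
        (∀ k : ℕ, k ^ 2 ∣ p.1 * p.2 → k ≤ S) ∧
        (-1 : ℤ) ^ ArithmeticFunction.cardFactors p.1 = e₁ ∧
        (-1 : ℤ) ^ ArithmeticFunction.cardFactors p.2 = e₂} : ℝ) :=
  Pool.Agent.TH890.DV.finalP (fun _ => rfl) ha hD r hq
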