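import Pool.Agent.TH890.OA.A6

/-!
Sequences that are small in residue classes, such as the Liouville function, do not correlate with
the prime values of almost all polynomials `P(n) + a`, the constant term `a` running up to the size
of `P(x)`; also for `k` constant terms simultaneously.

Method: on average over the constant terms the primes can be replaced by the numbers free of prime
factors up to `z = (log x)^C` (circle method, with Weyl sums and the theorem of Siegel and
Walfisz). The second moment of the resulting sums over the constant terms is then computed: the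
singular series of the pair `P(n) + a, P(m) + a` is expanded into residue classes of `n` and `m`
to small moduli.
-/

set_option autoImplicit false

namespace Pool.Agent.Results.MP_a17b09_nt.SignsAlongPrimeValues

open Finset Polynomial

/-- `∑ G(n) log (P(n) + a_1) ⋯ log (P(n) + a_k)` over those `1 ≤ n ≤ x` for which all of the `k`
values `P(n) + a_i` are (positive) primes -/
noncomputable def primeSum {k : ℕ} (P : ℤ[X]) (a : Fin k → ℕ) (G : ℕ → ℝ) (x : ℕ) : ℝ :=
  ∑ n ∈ (Icc 1 x).filter (fun n : ℕ => ∀ i, (P.eval (n : ℤ) + a i).toNat.Prime),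
    G n * ∏ i, Real.log ((P.eval (n : ℤ) + a i : ℤ) : ℝ)

/-- the vectors `a` with `1 ≤ a_1, …, a_k ≤ A` for which the sum exceeds `x / (log x)^U` in
absolute value -/
noncomputable def exceptions (k : ℕ) (P : ℤ[X]) (G : ℕ → ℝ) (x A U : ℕ) : Finset (Fin k → ℕ) :=
  (Fintype.piFinset fun _ : Fin k => Icc 1 A).filter
    (fun a => (x : ℝ) / Real.log x ^ U < |primeSum P a G x|)

/-- all sums of `G` up to `x` over residue classes to moduli up to `(log x)^V` are at most
`x / (log x)^V` in absolute value -/
def SmallInClasses (G : ℕ → ℝ) (x V : ℕ) : Prop :=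
  ∀ q r : ℕ, 1 ≤ q → (q : ℝ) ≤ Real.log x ^ V →
    |∑ n ∈ (Icc 1 x).filter (fun n => n ≡ r [MOD q]), G n| ≤ x / Real.log x ^ V

/-- the Liouville function `(-1)^Ω(n)` -/
noncomputable def liouville (n : ℕ) : ℝ := (-1) ^ ArithmeticFunction.cardFactors n

lemma primeSum_eq {k : ℕ} (P : ℤ[X]) (a : Fin k → ℕ) (G : ℕ → ℝ) (x : ℕ) :
    primeSum P a G x = Pool.Agent.TH890.OA.ps P G x a := by
  classical
  unfold primeSum Pool.Agent.TH890.OA.ps
  rw [sum_filter]
  refine sum_congr rfl fun n _ => ?_
  have e : ∀ i, Pool.Agent.H373R2.T7.vl (fun _ : Fin k => P) (fun _ => 1) a i n = P.eval (n : ℤ) + a i := by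
    intro i
    unfold Pool.Agent.H373R2.T7.vl
    ring
  simp only [e]
  split_ifs with h
  · congr 1
    refine prod_congr rfl fun i _ => ?_
    unfold Pool.Agent.H373R2.T7.lamP
    rw [if_pos (h i)]
    have h1 : 0 < P.eval (n : ℤ) + a i := by
      have h2 := (h i).pos
      omega
    have h2 : (((P.eval (n : ℤ) + a i).toNat : ℕ) : ℤ) = P.eval (n : ℤ) + a i := Int.toNat_of_nonneg h1.le
    have h3 : ((((P.eval (n : ℤ) + a i).toNat : ℕ) : ℤ) : ℝ) = ((P.eval (n : ℤ) + a i : ℤ) : ℝ) := by rw [h2]
    rw [← h3]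
    rfl
  · push Not at h
    obtain ⟨i, hi⟩ := h
    rw [prod_eq_zero (mem_univ i), mul_zero]
    unfold Pool.Agent.H373R2.T7.lamP
    rw [if_neg hi]

/-- **Sequences without bias in residue classes do not correlate with prime values.** Let `P` be a
polynomial with integer coefficients, of degree `d ≥ 1` and with positive leading coefficient, and
let `k`, `B ≥ 1` and `U` be given. There is `V` such that for all large `x`, all `A` with
`x^d / B ≤ A ≤ B x^d` and all `G` with `|G| ≤ 1` which are small in residue classes up to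
`(log x)^V`, the weighted sum over the `n ≤ x` for which `P(n) + a_1, …, P(n) + a_k` are all primes
is at most `x / (log x)^U` in absolute value, for all but at most `A^k / (log x)^U` of the vectors
`a` in `[1, A]^k`. This applies to the Liouville function: the parity of the number of prime
factors of `n` is equidistributed over the `n` for which all of the `P(n) + a_i` are primes. -/
theorem result (P : ℤ[X]) (hd : 1 ≤ P.natDegree) (hP : 0 < P.leadingCoeff) (k B U : ℕ) (hB : 1 ≤ B) :
    (∃ V x₀ : ℕ, ∀ x : ℕ, x₀ ≤ x → ∀ A : ℕ, A ≤ B * x ^ P.natDegree → x ^ P.natDegree ≤ B * A →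
      ∀ G : ℕ → ℝ, (∀ n, |G n| ≤ 1) → SmallInClasses G x V →
        (#(exceptions k P G x A U) : ℝ) ≤ (A : ℝ) ^ k / Real.log x ^ U) ∧
    (∃ x₀ : ℕ, ∀ x : ℕ, x₀ ≤ x → ∀ A : ℕ, A ≤ B * x ^ P.natDegree → x ^ P.natDegree ≤ B * A →
        (#(exceptions k P liouville x A U) : ℝ) ≤ (A : ℝ) ^ k / Real.log x ^ U) := by
  classical
  obtain ⟨V, x₀, h⟩ := Pool.Agent.TH890.OA.ortho_all hd hP k B U hB
  have h' : ∀ x : ℕ, x₀ ≤ x → ∀ A : ℕ, A ≤ B * x ^ P.natDegree → x ^ P.natDegree ≤ B * A →
      ∀ G : ℕ → ℝ, (∀ n, |G n| ≤ 1) → SmallInClasses G x V →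
        (#(exceptions k P G x A U) : ℝ) ≤ (A : ℝ) ^ k / Real.log x ^ U := by
    intro x hx A h1 h2 G hG hGs
    refine le_trans (le_of_eq ?_) (h x hx A h1 h2 G hG hGs)
    unfold exceptions Pool.Agent.TH890.OA.Bx
    congr 2
    ext a
    rw [mem_filter, mem_filter, primeSum_eq, not_le]
  obtain ⟨x₁, hl⟩ := Pool.Agent.TH890.OA.lio_ap V
  refine ⟨⟨V, x₀, h'⟩, ⟨max x₀ x₁, fun x hx A h1 h2 => ?_⟩⟩
  exact h' x (le_trans (le_max_left _ _) hx) A h1 h2 liouville Pool.Agent.TH890.OA.abs_lio
    (fun q r hq _ => hl x (le_trans (le_max_right _ _) hx) q r hq)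

end Pool.Agent.Results.MP_a17b09_nt.SignsAlongPrimeValues
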