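import Pool.Agent.TH882.K4
import Pool.Agent.TH882.J5

/-!
For all vectors `(c_1, ..., c_r)` of positive integers `c_j ≤ K x ^ 2` without local obstruction,
except a proportion at most `κ`, the quadratic polynomials `a_j n ^ 2 + b_j n + c_j` are
simultaneously prime for at least `c x / (log x) ^ (r + 1)` primes `n ≤ x` which have at least `m`
other primes at distance at most `ε log x`.
-/

set_option autoImplicit false

open Finset Filter Topology

namespace Pool.Agent.Results.MP_a17b09_nt.SystemsInShortGaps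

open Classical in
/-- The primes different from `p` at distance at most `R` from `p`. -/
noncomputable def neighbours (R : ℝ) (p : ℕ) : Finset ℕ :=
  (Icc 1 (p + ⌊R⌋₊)).filter (fun q => q.Prime ∧ q ≠ p ∧ |(q : ℝ) - p| ≤ R)

/-- For every prime `l` there is an integer `n` such that `l` divides none of the numbers `n` and
`a_j * n ^ 2 + b_j * n + c_j`. -/
def Admissible {r : ℕ} (a b : Fin r → ℤ) (c : Fin r → ℕ) : Prop :=
  ∀ l : ℕ, l.Prime → ∃ n : ℤ, ¬ (l : ℤ) ∣ n ∧ ∀ j, ¬ (l : ℤ) ∣ a j * n ^ 2 + b j * n + c j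

open Classical in
/-- The primes `n ≤ x` with at least `m` other primes at distance at most `ε log x` for which all
`a_j * n ^ 2 + b_j * n + c_j` are (positive) primes. -/
noncomputable def arguments {r : ℕ} (a b : Fin r → ℤ) (m : ℕ) (ε : ℝ) (c : Fin r → ℕ) (x : ℕ) :
    Finset ℕ :=
  (Icc 1 x).filter (fun n => n.Prime ∧ m ≤ (neighbours (ε * Real.log x) n).card ∧
    ∀ j, (a j * (n : ℤ) ^ 2 + b j * n + c j).toNat.Prime)

open Classical in
/-- The vectors without local obstruction and with few arguments. -/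
noncomputable def exceptions {r : ℕ} (a b : Fin r → ℤ) (m : ℕ) (ε δ : ℝ) (K x : ℕ) :
    Finset (Fin r → ℕ) :=
  (Fintype.piFinset (fun _ : Fin r => Icc 1 (K * x ^ 2))).filter (fun c => Admissible a b c ∧
    ((arguments a b m ε c x).card : ℝ) < δ * (x / Real.log x ^ (r + 1)))

open Polynomial in
theorem result (r : ℕ) (a b : Fin r → ℤ) (ha : ∀ j, 0 < a j) (m K : ℕ) (ε κ : ℝ) (hε : 0 < ε)
    (hκ : 0 < κ) : ∃ δ : ℝ, 0 < δ ∧ ∃ x₀ : ℕ, ∀ x : ℕ, x₀ ≤ x →
      ((exceptions a b m ε δ K x).card : ℝ) ≤ κ * ((x : ℝ) ^ 2) ^ r := by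
  classical
  set g : Fin r → Polynomial ℤ := fun j => C (a j) * Polynomial.X ^ 2 +
    C (b j) * Polynomial.X + C 0 with hg
  have ha0 : ∀ j, a j ≠ 0 := fun j => (ha j).ne'
  have hgd : ∀ j, (g j).natDegree = 2 := fun j => by
    rw [hg]
    exact natDegree_quadratic (ha0 j)
  have hge : ∀ j, ∀ n : ℤ, (g j).eval n = a j * n ^ 2 + b j * n := by
    intro j n
    rw [hg]
    simp only [eval_add, eval_mul, eval_C, eval_pow, eval_X]
    ring
  obtain ⟨δ, hδ, x₀, h⟩ := Pool.Agent.TH882.KS.sys_most g (fun j => by rw [hgd j]; norm_num)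
    (fun j => by
      rw [hg]
      simp only
      rw [leadingCoeff_quadratic (ha0 j)]
      exact ha j) (Pool.Agent.TH882.JS.KP m ε) (Pool.Agent.TH882.JS.KP_most m ε hε) K κ hκ
  refine ⟨δ, hδ, max x₀ 100, fun x hx => ?_⟩
  have hx0 : x₀ ≤ x := by omega
  have hx100 : 100 ≤ x := by omega
  have h1 := h x hx0
  have e0 : ∏ j, (x : ℝ) ^ (g j).natDegree = ((x : ℝ) ^ 2) ^ r := by
    rw [prod_congr rfl fun j _ => by rw [hgd j]]
    rw [prod_const, card_univ, Fintype.card_fin]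
  rw [e0] at h1
  refine le_trans ?_ h1
  apply Nat.cast_le.2
  apply card_le_card
  intro c hc
  unfold exceptions at hc
  rw [mem_filter, Fintype.mem_piFinset] at hc
  rw [mem_filter, Fintype.mem_piFinset]
  obtain ⟨hc1, hc2, hc3⟩ := hc
  refine ⟨fun j => ?_, ?_, lt_of_le_of_lt ?_ hc3⟩
  · rw [hgd j]
    exact hc1 j
  · intro l hl
    obtain ⟨n, hn1, hn2⟩ := hc2 l hl
    refine ⟨n, hn1, fun j h => hn2 j ?_⟩
    rw [one_mul, hge j n, add_comm] at h
    exact h
  · apply Nat.cast_le.2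
    apply card_le_card
    intro n hn
    unfold Pool.Agent.TH882.KS.SysA at hn
    rw [mem_filter, mem_Ico] at hn
    obtain ⟨⟨hn1, hn2⟩, hn3, hn4⟩ := hn
    unfold Pool.Agent.TH882.JS.KP at hn3
    rw [mem_filter] at hn3
    unfold arguments
    rw [mem_filter, mem_Icc]
    refine ⟨⟨by omega, by omega⟩, hn3.2.1, hn3.2.2.trans ?_, ?_⟩
    · unfold Pool.Agent.TH882.JS.nb neighbours
      apply card_le_card
      have hX0 : (0 : ℝ) < (x / 3 : ℕ) := by
        have : 0 < x / 3 := by omega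
        exact_mod_cast this
      have hX1 : (1 : ℝ) ≤ (x / 3 : ℕ) := by
        have : 1 ≤ x / 3 := by omega
        exact_mod_cast this
      have hXN : ((x / 3 : ℕ) : ℝ) ≤ x := by
        have : x / 3 ≤ x := by omega
        exact_mod_cast this
      have hlog : Real.log (x / 3 : ℕ) ≤ Real.log x := Real.log_le_log hX0 hXN
      have hlog0 : 0 ≤ Real.log (x / 3 : ℕ) := Real.log_nonneg hX1
      have hR : ε * Real.log (x / 3 : ℕ) ≤ ε * Real.log x := mul_le_mul_of_nonneg_left hlog hε.le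
      have hfl : ⌊ε * Real.log (x / 3 : ℕ)⌋₊ ≤ ⌊ε * Real.log x⌋₊ := Nat.floor_le_floor hR
      have hfl2 : ((⌊ε * Real.log (x / 3 : ℕ)⌋₊ : ℕ) : ℝ) ≤ ε * Real.log x :=
        (Nat.floor_le (by positivity)).trans hR
      intro q hq
      rw [mem_filter, mem_Icc] at hq ⊢
      obtain ⟨⟨hq1, hq2⟩, hq3, hq4⟩ := hq
      refine ⟨⟨hq3.pos, by omega⟩, hq3, hq4, ?_⟩
      rw [abs_le]
      have e1 : (q : ℝ) ≤ n + (⌊ε * Real.log (x / 3 : ℕ)⌋₊ : ℕ) := by exact_mod_cast hq2
      have e2 : (n : ℝ) ≤ q + (⌊ε * Real.log (x / 3 : ℕ)⌋₊ : ℕ) := by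
        have : n ≤ q + ⌊ε * Real.log (x / 3 : ℕ)⌋₊ := by omega
        exact_mod_cast this
      constructor <;> linarith
    · intro j
      have e1 := hn4 j
      rw [hge j, add_comm] at e1
      exact e1

end Pool.Agent.Results.MP_a17b09_nt.SystemsInShortGaps
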